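import Pool.Agent.Lib.WPR_o7

/-!
# MP_2e2606_al: powers of quadratic words

A word is quadratic if every basis letter occurs at most twice in it (`x_i` and its inverse
counted together), for example the boundary word of a compact surface, or a single letter. For
every `n` there is an algorithm which decides whether some automorphism of the free group `F_n`
maps the element of a word `g` to a power of a quadratic word, and an algorithm which decides,
given words `w₁, …, w_m` and a word `g`, whether this is so and some automorphism of `F_n` maps `g`
into the subgroup generated by `w₁, …, w_m`. Words are lists of pairs (index of the letter, `true`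
for `x_i` and `false` for its inverse).
-/

namespace Pool.Agent.Results.MP_2e2606_al.QuadraticWords

theorem result (n : ℕ) :
    ComputablePred (fun g : List (Fin n × Bool) =>
      ∃ (ψ : FreeGroup (Fin n) ≃* FreeGroup (Fin n)) (q : List (Fin n × Bool)) (k : ℕ),
        (∀ i : Fin n, (q.map Prod.fst).count i ≤ 2) ∧
        ψ (FreeGroup.mk g) = FreeGroup.mk q ^ k) ∧
    ComputablePred (fun z : List (List (Fin n × Bool)) × List (Fin n × Bool) =>
      (∃ (ψ : FreeGroup (Fin n) ≃* FreeGroup (Fin n)) (q : List (Fin n × Bool)) (k : ℕ),
        (∀ i : Fin n, (q.map Prod.fst).count i ≤ 2) ∧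
        ψ (FreeGroup.mk z.2) = FreeGroup.mk q ^ k) ∧
      ∃ φ : FreeGroup (Fin n) ≃* FreeGroup (Fin n),
        φ (FreeGroup.mk z.2) ∈
          Subgroup.closure {g : FreeGroup (Fin n) | ∃ w ∈ z.1, g = FreeGroup.mk w}) :=
  WPP.o7_main_qp n

end Pool.Agent.Results.MP_2e2606_al.QuadraticWords
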