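import Pool.Agent.Lib.WPR_o7

/-!
# MP_2e2606_al: elements of free factors of rank at most two

For every `n` there is an algorithm which decides whether a word `g` represents an element of a
free factor of rank at most two of the free group `F_n` (some automorphism maps `g` into the
subgroup generated by at most two basis elements), and an algorithm which decides, given words
`w₁, …, w_m` and a word `g`, whether this is so and some automorphism of `F_n` maps `g` into the
subgroup generated by `w₁, …, w_m`. Words are lists of pairs (index of the letter, `true` for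
`x_i` and `false` for its inverse).
-/

namespace Pool.Agent.Results.MP_2e2606_al.RankTwoFactors

theorem result (n : ℕ) :
    ComputablePred (fun g : List (Fin n × Bool) =>
      ∃ (ψ : FreeGroup (Fin n) ≃* FreeGroup (Fin n)) (T : Finset (Fin n)), T.card ≤ 2 ∧
        ψ (FreeGroup.mk g) ∈ Subgroup.closure (FreeGroup.of '' (T : Set (Fin n)))) ∧
    ComputablePred (fun z : List (List (Fin n × Bool)) × List (Fin n × Bool) =>
      (∃ (ψ : FreeGroup (Fin n) ≃* FreeGroup (Fin n)) (T : Finset (Fin n)), T.card ≤ 2 ∧
        ψ (FreeGroup.mk z.2) ∈ Subgroup.closure (FreeGroup.of '' (T : Set (Fin n)))) ∧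
      ∃ φ : FreeGroup (Fin n) ≃* FreeGroup (Fin n),
        φ (FreeGroup.mk z.2) ∈
          Subgroup.closure {g : FreeGroup (Fin n) | ∃ w ∈ z.1, g = FreeGroup.mk w}) :=
  WPP.o7_main_c2 n

end Pool.Agent.Results.MP_2e2606_al.RankTwoFactors
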